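import Pool.Agent.U497.AW.PolyWin

/-!
# Almost prime k-tuplets for EVERY admissible set of linear forms: the asymptotic in all windows around almost all integers

Let `a_i x + b_i`, `i ≤ k`, be ANY admissible set in the sense of the problem (the coefficients are arbitrarily large compared with the
variable) and let `(Y, Y + H]` be ANY interval. Let `z` be a certain number between two small powers of `H`,
`H ^ δ ≤ z ≤ H ^ θ`, which depends on `k, ε, θ, H` only, and let `V = ∏_{p ≤ z} (1 - ω(p) / p)` be the sieve product. For all but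
`ε H` of the integers `n` of the interval, ALL the windows `(u, v]` around `n` inside `(Y, Y + H]` of length at least `K / V`
contain the expected number `(v - u) V` of integers `m` for which no `a_i m + b_i` has a prime factor `p ≤ z`, up to a relative error
`ε`. As `V` is `𝔖 / (log H) ^ k` up to constants (`𝔖` the singular series over the primes `≤ z`), the shortest windows have the length
`K'` times the average distance of the prime `k`-tuplets predicted by Hardy and Littlewood. If `a_1 ⋯ a_k ≤ H ^ A` and `Y ≤ H ^ A`, that is for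
windows as close to the origin as an arbitrarily small power of `a_1 ⋯ a_k`, all the numbers `a_i m + b_i` counted have at most
`2 (A + 1) / δ` prime factors.

Proof (`Pool/Agent/U497/AW`): the second moment of the numbers of the `m` in short intervals, with an average of the singular series of the
pairs `m, m + h` over `h` which needs no condition on the coefficients, and a maximal inequality for all windows at once.
-/

set_option autoImplicit false

namespace Pool.Agent.Results.MP_746f10_nt.AlmostPrimeTupletsInWindows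

open Finset Polynomial

/-- The set of linear forms `a_i x + b_i` is admissible in the sense of the problem. -/
def Admissible {k : ℕ} (a b : Fin k → ℕ) : Prop :=
  (∀ i, 1 ≤ b i ∧ b i < a i) ∧ ∀ p : ℕ, p.Prime → ∃ n : ℤ, ∀ i, ¬ (p : ℤ) ∣ a i * n + b i

/-- The number of the classes `n` modulo `p` for which `p` divides some `a_i n + b_i`. -/
def omega {k : ℕ} (a b : Fin k → ℕ) (p : ℕ) : ℕ := ((range p).filter (fun n : ℕ => ∃ i, p ∣ a i * n + b i)).card

/-- The sieve product `∏_{p ≤ z} (1 - ω(p) / p)`. -/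
noncomputable def density {k : ℕ} (a b : Fin k → ℕ) (z : ℕ) : ℝ :=
  ∏ p ∈ (Icc 1 z).filter Nat.Prime, (1 - (omega a b p : ℝ) / p)

/-- `x` has no prime factor `p ≤ z`. -/
def Rough (z x : ℕ) : Prop := ∀ p : ℕ, p.Prime → p ≤ z → ¬ p ∣ x

/-- The number of the `m` with `u < m ≤ v` for which no `a_i m + b_i` has a prime factor `p ≤ z`. -/
noncomputable def count {k : ℕ} (a b : Fin k → ℕ) (z u v : ℕ) : ℕ :=
  Set.ncard {m : ℕ | u < m ∧ m ≤ v ∧ ∀ i, Rough z (a i * m + b i)}

/-- The integers `n` which lie in SOME window `(u, v]` inside `(Y, Y + H]` with `V (v - u) ≥ K`, `V = density a b z`, in which the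
number of such `m` differs from `V (v - u)` by more than `ε V (v - u)`. -/
def exceptions {k : ℕ} (a b : Fin k → ℕ) (ε K : ℝ) (z Y H : ℕ) : Set ℕ :=
  {n : ℕ | ∃ u v : ℕ, Y ≤ u ∧ u < n ∧ n ≤ v ∧ v ≤ Y + H ∧ K ≤ density a b z * ((v : ℝ) - u) ∧
    ε * (density a b z * ((v : ℝ) - u)) < |(count a b z u v : ℝ) - density a b z * ((v : ℝ) - u)|}

/-- the linear forms -/
noncomputable def pol {k : ℕ} (a b : Fin k → ℕ) : Fin k → ℤ[X] := fun i => C (a i : ℤ) * X + C (b i : ℤ)

lemma pol_eval {k : ℕ} (a b : Fin k → ℕ) (i : Fin k) (x : ℤ) : (pol a b i).eval x = a i * x + b i := by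
  unfold pol
  simp

lemma dvd_pol {k : ℕ} (a b : Fin k → ℕ) (i : Fin k) (p n : ℕ) :
    (p : ℤ) ∣ (pol a b i).eval (n : ℤ) ↔ p ∣ a i * n + b i := by
  rw [pol_eval]
  exact_mod_cast Int.natCast_dvd_natCast (m := p) (n := a i * n + b i)

lemma pol_coeff {k : ℕ} (a b : Fin k → ℕ) {T : ℤ} (ha : ∀ i, (a i : ℤ) ≤ T) (hb : ∀ i, (b i : ℤ) ≤ T) (i : Fin k) (j : ℕ) :
    |(pol a b i).coeff j| ≤ T := by
  have hT : 0 ≤ T := (Int.natCast_nonneg _).trans (ha i)
  unfold pol
  have h : (C (a i : ℤ) * X + C (b i : ℤ) : ℤ[X]).coeff j =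
      (a i : ℤ) * (if 1 = j then 1 else 0) + (if j = 0 then (b i : ℤ) else 0) := by
    simp only [coeff_add, coeff_C_mul, coeff_X, coeff_C]
  rw [h]
  rcases j with _ | _ | j
  · simpa using hb i
  · simpa using ha i
  · simpa using hT

lemma pol_adm {k : ℕ} {a b : Fin k → ℕ} (h : Admissible a b) : Pool.Agent.U497.AW.Adm k 1 (pol a b) := by
  have hdeg : ∀ i, (pol a b i).natDegree = 1 := by
    intro i
    unfold pol
    apply natDegree_linear
    have := h.1 i
    exact_mod_cast (by omega : a i ≠ 0)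
  refine ⟨fun i => (hdeg i).ge, fun i => (hdeg i).le, fun p hp => ?_⟩
  obtain ⟨n, hn⟩ := h.2 p hp
  exact ⟨n, fun i => by rw [pol_eval]; exact hn i⟩

lemma density_eq {k : ℕ} (a b : Fin k → ℕ) (z : ℕ) : Pool.Agent.U497.AW.dens (pol a b) z = density a b z := by
  unfold Pool.Agent.U497.AW.dens density
  apply prod_congr rfl
  intro p _
  have h : Pool.Agent.U497.AW.om (pol a b) p = omega a b p := by
    unfold Pool.Agent.U497.AW.om omega
    congr 1
    apply filter_congr
    intro n _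
    simp only [dvd_pol]
  rw [h]

lemma rough_iff {k : ℕ} (a b : Fin k → ℕ) (i : Fin k) (z m : ℕ) :
    Pool.Agent.U497.AW.Rgh z ((pol a b i).eval (m : ℤ)) ↔ Rough z (a i * m + b i) := by
  unfold Pool.Agent.U497.AW.Rgh Rough
  simp only [dvd_pol]

lemma count_eq {k : ℕ} (a b : Fin k → ℕ) (z u v : ℕ) :
    Pool.Agent.U497.AW.cntW (pol a b) z u v = count a b z u v := by
  unfold Pool.Agent.U497.AW.cntW count
  congr 1
  ext m
  simp only [rough_iff]

lemma exceptions_eq {k : ℕ} (a b : Fin k → ℕ) (ε K : ℝ) (z Y H : ℕ) :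
    Pool.Agent.U497.AW.excW (pol a b) ε K z Y H = exceptions a b ε K z Y H := by
  unfold Pool.Agent.U497.AW.excW exceptions
  simp only [density_eq, count_eq]

/-- **Theorem.** -/
theorem result (k : ℕ) (ε θ : ℝ) (hε : 0 < ε) (hθ : 0 < θ) :
    ∃ δ K : ℝ, 0 < δ ∧ 0 < K ∧ ∃ H₀ : ℕ, ∀ H : ℕ, H₀ ≤ H → ∃ z : ℕ, (H : ℝ) ^ δ ≤ z ∧ (z : ℝ) ≤ (H : ℝ) ^ θ ∧
      ∀ a b : Fin k → ℕ, Admissible a b → ∀ Y : ℕ,
        ((exceptions a b ε K z Y H).ncard : ℝ) ≤ ε * H ∧
        ∀ A : ℕ, ∏ i, a i ≤ H ^ A → Y ≤ H ^ A → ∀ m : ℕ, m ≤ Y + H → (∀ i, Rough z (a i * m + b i)) →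
          ∀ i, ((a i * m + b i).primeFactorsList.length : ℝ) ≤ 2 * (A + 1) / δ := by
  obtain ⟨δ, K, hδ, hK, H₀, h1⟩ := Pool.Agent.U497.AW.polyWin k 1 ε θ hε hθ
  refine ⟨δ, K, hδ, hK, H₀, fun H hH => ?_⟩
  obtain ⟨z, hz1, hz2, hz3⟩ := h1 H hH
  refine ⟨z, hz1, hz2, fun a b hab Y => ?_⟩
  obtain ⟨h2, h3⟩ := hz3 _ (pol_adm hab) Y
  rw [exceptions_eq] at h2
  refine ⟨h2, fun A hA hY m hm hr i => ?_⟩
  have hai : ∀ i, a i ≤ H ^ A := by
    intro i
    refine le_trans ?_ hA
    exact Nat.le_of_dvd (prod_pos fun j _ => by have := hab.1 j; omega) (dvd_prod_of_mem a (mem_univ i))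
  have hbi : ∀ i, b i ≤ H ^ A := fun i => (hab.1 i).2.le.trans (hai i)
  have h4 := (h3 A (pol_coeff a b (fun i => by exact_mod_cast hai i) (fun i => by exact_mod_cast hbi i)) hY m hm
    (fun i => (rough_iff a b i z m).2 (hr i)) i).2
  rw [pol_eval] at h4
  have h5 : ((a i : ℤ) * (m : ℤ) + b i).natAbs = a i * m + b i := by
    have : ((a i : ℤ) * (m : ℤ) + b i) = ((a i * m + b i : ℕ) : ℤ) := by push_cast; ring
    rw [this]
    exact Int.natAbs_natCast _
  rw [h5] at h4
  refine h4.trans (le_of_eq ?_)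
  push_cast
  ring

end Pool.Agent.Results.MP_746f10_nt.AlmostPrimeTupletsInWindows
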