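import Pool.Agent.K7.H49.LT.Lin
import Pool.Agent.K7.H49.LT.LinFam
import Pool.Agent.U837.CC.Eg
import Pool.Agent.U837.CC.Cr

/-!
# Prime `k`-tuples `a_i n + b_i`, `n` bounded by a power of the logarithm: all leading coefficients near concatenations

There is a set `𝒢` of good leading coefficients, independent of the tuples, with two properties. For almost all `t ≤ x`, ALL
the integers within `log ^ W x` of the integers whose digits in some base `b ≤ log ^ W x` are those of `f_1(t)`, `f_2(t)`, ...,
`f_r(t)` written one after the other, where `f_1, ..., f_r` are ANY integer polynomials of distinct degrees between `1` and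
`D` with coefficients of absolute value at most `log ^ W x`, are in `𝒢`. And for all large `a_1, …, a_k ∈ 𝒢` and almost all
constant terms `b_i < a_i` the asymptotic formula of Hardy and Littlewood holds (up to a factor `1 ± ε`) for the number of the
`n ≤ M` with all `a_i n + b_i` prime, where `M` is a power of the logarithm of the coefficients (far below the bound of the
conjecture, which is a power of the coefficients). For given bases and polynomials the concatenations are a thin set: `x`
integers of the size `x ^ (deg f_1 + ... + deg f_r)`.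

Method: the integers with a given number of digits in every block are the values `∑_i b ^ (e_i) f_i(t)` of a polynomial
with huge coefficients. An inverse theorem for Weyl sums with ALL the coefficients (`Pool.Agent.U837.CC.IWF_all`, deduced
from the one for the leading coefficient in `H373R2/NB/Weyl`) shows, one block after the other, that these values have up
to powers of the logarithm the least possible additive energy of some order (`Pool.Agent.U837.CC.energy_vec`,
`Pool.Agent.U837.CC.blk_law`; here the degrees have to be distinct); the number of the choices of the digit lengths, of the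
bases and of the polynomials is only a power of the logarithm (`Pool.Agent.U837.CC.cover`). Then the theorems of the
starting files (`Pool.Agent.K7.H49.LT`) on families of small energy and on tuples with good coefficients apply.
-/

set_option autoImplicit false

namespace Pool.Agent.Results.MP_746f10_nt.Concatenations

open Finset Polynomial

/-- the number of `1 ≤ n ≤ M` for which all the numbers `a_i n + b_i` are prime -/
def count {k : ℕ} (a b : Fin k → ℕ) (M : ℕ) : ℕ :=
  ((Icc 1 M).filter (fun n => ∀ i, (a i * n + b i).Prime)).card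

/-- the number of the classes `n` modulo `p` for which `p` divides some `a_i n + b_i` -/
def roots {k : ℕ} (a b : Fin k → ℕ) (p : ℕ) : ℕ := ((range p).filter (fun n => ∃ i, p ∣ a i * n + b i)).card

/-- the singular series, truncated at `y` -/
noncomputable def sing {k : ℕ} (a b : Fin k → ℕ) (y : ℕ) : ℝ :=
  ∏ p ∈ (Icc 1 y).filter Nat.Prime, (1 - (roots a b p : ℝ) / p) / (1 - 1 / (p : ℝ)) ^ k

/-- the Hardy-Littlewood formula, up to a factor `1 ± ε`, with the singular series truncated at any
`y ≥ M` -/
def Holds {k : ℕ} (ε : ℝ) (a b : Fin k → ℕ) (M : ℕ) : Prop :=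
  ∀ y : ℕ, M ≤ y → |(count a b M : ℝ) - sing a b y * (M / ∏ i, Real.log (a i))| ≤
    ε * (sing a b y * (M / ∏ i, Real.log (a i)))

open Classical in
/-- the number of the vectors `b`, `1 ≤ b_i < a_i`, for which the formula fails -/
noncomputable def exceptions {k : ℕ} (ε : ℝ) (a : Fin k → ℕ) (M : ℕ) : ℕ :=
  ((Fintype.piFinset fun i => Ico 1 (a i)).filter (fun b => ¬ Holds ε a b M)).card

/-- The number whose digits in base `b`, read from the left to the right, are those of `f(t)`, `f ∈ F`, written one after
the other. -/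
noncomputable def concat (b : ℕ) (F : List ℤ[X]) (t : ℕ) : ℕ :=
  Nat.ofDigits b ((F.reverse.map (fun f => Nat.digits b (f.eval (t : ℤ)).toNat)).flatten)

/-- The base `b` satisfies `2 ≤ b ≤ r`; the list `F` is not empty, and the members of `F` have distinct degrees between `1`
and `D`, coefficients of absolute value at most `r`, and nonnegative values at `t`. -/
def Small (D : ℕ) (r : ℝ) (t b : ℕ) (F : List ℤ[X]) : Prop :=
  (2 ≤ b ∧ (b : ℝ) ≤ r) ∧ F ≠ [] ∧ (F.map natDegree).Nodup ∧
    ∀ f ∈ F, 1 ≤ f.natDegree ∧ f.natDegree ≤ D ∧ (∀ i, |((f.coeff i : ℤ) : ℝ)| ≤ r) ∧ 0 ≤ f.eval (t : ℤ)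

open Classical in
/-- The number of the `1 ≤ t ≤ x` for which there are a base `b` and a list `F` of polynomials with
`Small D (log ^ W x) t b F` and an integer `a ∉ 𝒢` with `|a - concat b F t| ≤ log ^ W x`. -/
noncomputable def outside (D W x : ℕ) (𝒢 : Set ℕ) : ℕ :=
  ((Icc 1 x).filter (fun t : ℕ => ∃ (b : ℕ) (F : List ℤ[X]), Small D (Real.log x ^ W) t b F ∧
    ∃ a : ℕ, |(a : ℝ) - concat b F t| ≤ Real.log x ^ W ∧ a ∉ 𝒢)).card

lemma holds_of {k : ℕ} (ε : ℝ) (a b : Fin k → ℕ) (M : ℕ) (ha : ∀ i, 2 ≤ a i) (h : Pool.Agent.K7.H49.LT.Hol ε a b M) :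
    Holds ε a b M := by
  intro y hy
  have h1 := h y hy
  have hP : 0 < ∏ i, Real.log (a i) := prod_pos fun i _ => Real.log_pos (by
    have := ha i
    exact_mod_cast (by omega : 1 < a i))
  have e1 : Pool.Agent.K7.H49.LT.cl a b M = count a b M := rfl
  have e2 : Pool.Agent.K7.H49.LT.sg k (Pool.Agent.K7.H49.LT.rt a b) y = sing a b y := rfl
  rw [e1, e2] at h1
  set P := ∏ i, Real.log (a i) with hPd
  set s := sing a b y
  have e3 : (count a b M : ℝ) - s * (M / P) = (count a b M * P - M * s) / P := by field_simp
  have e4 : ε * (s * (M / P)) = (ε * (M * s)) / P := by ring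
  rw [e3, e4, abs_div, abs_of_pos hP]
  exact div_le_div_of_nonneg_right h1 hP.le

/-- **Prime tuples in systems of linear forms whose leading coefficients are near concatenated polynomial values.** Let
`k ≥ 1` and `ε > 0`. There are an exponent `C` and `κ > 0` such that for all `D`, `W`, `U` and `E` there is a set `𝒢` of
positive integers with the following properties.
(1) For all large `x` and all but at most `x / log ^ U x` of the integers `1 ≤ t ≤ x`: for ALL the bases `b ≤ log ^ W x` and ALL
the lists `F` of integer polynomials of distinct degrees between `1` and `D` with coefficients of absolute value at most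
`log ^ W x` and nonnegative values at `t`, ALL the integers `a ≥ 0` within `log ^ W x` of the integer whose digits in base `b`
are those of `f(t)`, `f ∈ F`, written one after the other are in `𝒢`.
(2) For all `a_1, ..., a_k ∈ 𝒢` (large) and all `M` with `(log a_i)^C ≤ M ≤ (log a_i)^E` for all `i`: for all
but `M^(-κ) a_1 ⋯ a_k` of the vectors `b` with `1 ≤ b_i < a_i`, the number of `n ≤ M` for which all
`a_i n + b_i` are prime is within a factor `1 ± ε` of the prediction of Hardy and Littlewood. -/
theorem result (k : ℕ) (hk : 1 ≤ k) (ε : ℝ) (hε : 0 < ε) : ∃ C : ℕ, ∃ κ : ℝ, 0 < κ ∧ ∀ D W U E : ℕ,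
    ∃ (𝒢 : Set ℕ) (N₀ : ℕ),
      (∀ x : ℕ, N₀ ≤ x → (outside D W x 𝒢 : ℝ) ≤ x / Real.log x ^ U) ∧
      (∀ a : Fin k → ℕ, (∀ i, a i ∈ 𝒢 ∧ N₀ ≤ a i) → ∀ M : ℕ,
        (∀ i, Real.log (a i) ^ C ≤ M ∧ (M : ℝ) ≤ Real.log (a i) ^ E) →
        (exceptions ε a M : ℝ) ≤ (M : ℝ) ^ (-κ) * ∏ i, (a i : ℝ)) := by
  classical
  obtain ⟨C, κ, hκ, hmain⟩ := Pool.Agent.K7.H49.LT.lin_main k hk ε hε
  refine ⟨C, κ, hκ, fun D W U E => ?_⟩
  obtain ⟨p, hp, hcat⟩ := Pool.Agent.U837.CC.cat_law D
  obtain ⟨B', A', hlaw⟩ := hcat W U
  obtain ⟨E1, n1, h1⟩ := Pool.Agent.K7.H49.LT.lin_fam E A' (B' + 1) p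
  obtain ⟨n2, h2⟩ := hmain E E1
  obtain ⟨n3, h3⟩ := Pool.Agent.H373R2.T7.ev_L' 1
  obtain ⟨x₀, h0⟩ := hlaw (fun a => ¬ Pool.Agent.K7.H49.LT.Gd E E1 a) (n1 + n3) (by
    intro N hN y s hs hE S hSy hS
    have hL := h3 N (by omega)
    have h4 := h1 p le_rfl N (by omega) y s (fun l hl => (hs l hl).trans (by
        exact Nat.le_mul_of_pos_left _ (by omega))) (hE.trans (by
      apply mul_le_mul_of_nonneg_right _ (by positivity)
      exact pow_le_pow_right₀ hL (by omega)))
    refine le_trans ?_ h4
    apply Nat.cast_le.2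
    apply card_le_card
    intro m hm
    rw [mem_filter]
    obtain ⟨h5, h6⟩ := hS m hm
    refine ⟨hSy hm, h5.trans ?_, h6⟩
    apply mul_le_mul_of_nonneg_right _ (Nat.cast_nonneg _)
    exact pow_le_pow_right₀ hL (by omega))
  refine ⟨{a | Pool.Agent.K7.H49.LT.Gd E E1 a}, x₀ + n2 + 3, ?_, ?_⟩
  · intro x hx
    unfold outside
    refine h0 x (by omega) _ ?_
    intro t ht
    rw [mem_filter] at ht
    obtain ⟨g1, b, F, ⟨⟨a1, a2⟩, a3, a4, a5⟩, a, g2, g3⟩ := ht
    exact ⟨g1, b, F.reverse, a1, a2, Pool.Agent.U837.CC.adm_rev ⟨a3, a4, a5⟩, a, g2, g3⟩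
  · intro a ha M hM
    refine le_trans ?_ (h2 a (fun i => ⟨by have := (ha i).2; omega, (ha i).1⟩) M hM)
    unfold exceptions
    have hsub : (Fintype.piFinset fun i => Ico 1 (a i)).filter (fun b => ¬ Holds ε a b M) ⊆
        (Fintype.piFinset fun i => Icc 1 (a i - 1)).filter (fun b => ¬ Pool.Agent.K7.H49.LT.Hol ε a b M) := by
      intro b hb
      rw [mem_filter, Fintype.mem_piFinset] at hb ⊢
      refine ⟨fun i => ?_, fun h5 => hb.2 (holds_of ε a b M (fun i => by have := (ha i).2; omega) h5)⟩
      have := mem_Ico.1 (hb.1 i)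
      rw [mem_Icc]
      omega
    exact_mod_cast card_le_card hsub

end Pool.Agent.Results.MP_746f10_nt.Concatenations
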