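import Pool.Agent.U160.FD.LinGood
import Pool.Agent.Results.MP_746f10_nt.AlmostAllCoefficients

/-!
# Prime tuples `a_i n + b_i` with `n` bounded by a power of the logarithm, for ALL leading coefficients near the blocks of
# digits of almost every point of a measure with Fourier decay

Definitions used, in `Pool.Agent.U160.FD`:
* `FourierDecay μ`: the Fourier transform `μ^(t) = ∫ exp(i t x) dμ(x)` of `μ` is `O(t ^ (-β))` for some `β > 0`;
* `block b x i j`: the integer whose digits in base `b` are the digits of `x` at the places `i + 1, …, j` after the point,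
  that is, the residue of `⌊b ^ j x⌋` modulo `b ^ (j - i)`.

Method (`Pool.Agent.U160.FD`): for all `l ≥ 1` the signed sums of the numbers `{l x_i}` for `2 h` independent points `x_i` of
`μ` are in an interval of length `r` with probability `O(r)`, uniformly in `l` (Fejer kernel on the circle and the decay of
the Fourier transform); thus the weights `μ{x : ⌊M {l x}⌋ + s = a}` have minimal additive energy of order `h`, they are
approximated by finite families (with multiplicities), and the theorems of the starting files on good leading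
coefficients (`Pool.Agent.K7.H49.LT.lin_fam` and `lin_main`, used in the starting result `AlmostAllCoefficients`) bound the
measure of the exceptional points; Borel-Cantelli.
-/

set_option autoImplicit false

namespace Pool.Agent.Results.MP_746f10_nt.DigitBlocks

open MeasureTheory Filter Finset Pool.Agent.U160.FD

/-- the number of `1 ≤ n ≤ M` for which all the numbers `a_i n + b_i` are prime -/
def count {k : ℕ} (a b : Fin k → ℕ) (M : ℕ) : ℕ :=
  ((Icc 1 M).filter (fun n => ∀ i, (a i * n + b i).Prime)).card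

/-- the number of the classes `n` modulo `p` for which `p` divides some `a_i n + b_i` -/
def roots {k : ℕ} (a b : Fin k → ℕ) (p : ℕ) : ℕ := ((range p).filter (fun n => ∃ i, p ∣ a i * n + b i)).card

/-- the singular series, truncated at `y` -/
noncomputable def sing {k : ℕ} (a b : Fin k → ℕ) (y : ℕ) : ℝ :=
  ∏ p ∈ (Icc 1 y).filter Nat.Prime, (1 - (roots a b p : ℝ) / p) / (1 - 1 / (p : ℝ)) ^ k

/-- for every prime `p` some integer `n` makes all the values `a_i n + b_i` prime to `p` -/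
def Admissible {k : ℕ} (a b : Fin k → ℕ) : Prop := ∀ p : ℕ, p.Prime → ∃ n : ℤ, ∀ i, ¬ (p : ℤ) ∣ a i * n + b i

/-- the Hardy-Littlewood formula, up to a factor `1 ± ε`, with the singular series truncated at any `y ≥ M`; and, if the
system is admissible, there is an `n` between `1` and `M` for which all the numbers `a_i n + b_i` are prime -/
def Holds {k : ℕ} (ε : ℝ) (a b : Fin k → ℕ) (M : ℕ) : Prop :=
  (∀ y : ℕ, M ≤ y → |(count a b M : ℝ) - sing a b y * (M / ∏ i, Real.log (a i))| ≤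
    ε * (sing a b y * (M / ∏ i, Real.log (a i)))) ∧
  (Admissible a b → ∃ n : ℕ, 1 ≤ n ∧ n ≤ M ∧ ∀ i, (a i * n + b i).Prime)

open Classical in
/-- the number of the vectors `b`, `1 ≤ b_i < a_i`, for which `Holds` fails -/
noncomputable def exceptions {k : ℕ} (ε : ℝ) (a : Fin k → ℕ) (M : ℕ) : ℕ :=
  ((Fintype.piFinset fun i => Ico 1 (a i)).filter (fun b => ¬ Holds ε a b M)).card

/-- `a` is at a distance of at most `k ^ W` from the integer whose digits in base `c` form a block of `k ≥ j ^ η` digits of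
`x` which ends at a place `j ≥ J` after the point -/
def Near (x : ℝ) (c : ℕ) (η : ℝ) (W J a : ℕ) : Prop :=
  ∃ j k : ℕ, J ≤ j ∧ k ≤ j ∧ (j : ℝ) ^ η ≤ k ∧ |(a : ℝ) - block c x (j - k) j| ≤ (k : ℝ) ^ W

lemma holds_of {k : ℕ} (hk : 1 ≤ k) (ε : ℝ) (hε : 0 < ε) (hε1 : ε < 1) (a b : Fin k → ℕ) (M : ℕ) (hM : 1 ≤ M)
    (ha : ∀ i, 2 ≤ a i) (h : Pool.Agent.K7.H49.LT.Hol ε a b M) : Holds ε a b M := by
  have h1 := Pool.Agent.Results.MP_746f10_nt.AlmostAllCoefficients.holds_of ε a b M ha h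
  refine ⟨h1, fun hadm => ?_⟩
  obtain ⟨C, κ, _, hres⟩ := Pool.Agent.Results.MP_746f10_nt.AlmostAllCoefficients.result k hk ε hε
  obtain ⟨_, _, _, _, _, h4⟩ := hres 0 0 0 0
  have h5 := h4 a b hadm M
  have hkr : (1:ℝ) ≤ k := by exact_mod_cast hk
  have h6 : 0 < Pool.Agent.Results.MP_746f10_nt.AlmostAllCoefficients.sing a b M := lt_of_lt_of_le (by positivity) h5
  have hP : 0 < ∏ i, Real.log (a i) := prod_pos fun i _ => Real.log_pos (by
    have := ha i
    exact_mod_cast (by omega : 1 < a i))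
  have hM0 : (0:ℝ) < M := by exact_mod_cast hM
  have h7 := (abs_le.1 (h1 M le_rfl)).1
  have h8 : 0 < Pool.Agent.Results.MP_746f10_nt.AlmostAllCoefficients.sing a b M * (M / ∏ i, Real.log (a i)) := by
    positivity
  have h9 : (0:ℝ) < Pool.Agent.Results.MP_746f10_nt.AlmostAllCoefficients.count a b M := by nlinarith
  have h10 : 0 < Pool.Agent.Results.MP_746f10_nt.AlmostAllCoefficients.count a b M := by exact_mod_cast h9
  unfold Pool.Agent.Results.MP_746f10_nt.AlmostAllCoefficients.count at h10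
  obtain ⟨n, hn⟩ := card_pos.1 h10
  rw [mem_filter, mem_Icc] at hn
  exact ⟨n, hn.1.1, hn.1.2, hn.2⟩

/-- **Prime tuples for all leading coefficients near blocks of digits.** Let `k ≥ 1` and `0 < ε < 1`. There are an exponent
`C` and `κ > 0` with the following property. Let `μ` be a probability measure on the line whose Fourier transform is
`O(t ^ (-β))` for some `β > 0` (for example a measure on a set of arbitrarily small positive dimension). Then `μ`-almost
every `x` has the following property: let `η > 0`, `W`, `E` and bases `c_1, …, c_k ≥ 2` be given. Then there is `J` such that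
for ALL `a_1, …, a_k` such that each `a_i` is at a distance of at most `m ^ W` from the integer given by some block of
`m ≥ j ^ η` digits of `x` in base `c_i`, which ends at some place `j ≥ J` after the point, and for all `M` with
`(log a_i) ^ C ≤ M ≤ (log a_i) ^ E` for all `i`: for all but `M ^ (-κ) a_1 ⋯ a_k` of the vectors `b` with `1 ≤ b_i < a_i`, the
number of `n ≤ M` for which all `a_i n + b_i` are prime is within a factor `1 ± ε` of the prediction of Hardy and Littlewood,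
and there is such an `n` if the system is admissible. -/
theorem result (k : ℕ) (hk : 1 ≤ k) (ε : ℝ) (hε : 0 < ε) (hε1 : ε < 1) : ∃ C : ℕ, ∃ κ : ℝ, 0 < κ ∧
    ∀ (μ : Measure ℝ) [IsProbabilityMeasure μ], FourierDecay μ →
      ∀ᵐ x ∂μ, ∀ (η : ℝ) (W E : ℕ) (c : Fin k → ℕ), 0 < η → (∀ i, 2 ≤ c i) →
        ∃ J : ℕ, ∀ a : Fin k → ℕ, (∀ i, Near x (c i) η W J (a i)) → ∀ M : ℕ,
          (∀ i, Real.log (a i) ^ C ≤ M ∧ (M : ℝ) ≤ Real.log (a i) ^ E) →
          (exceptions ε a M : ℝ) ≤ (M : ℝ) ^ (-κ) * ∏ i, (a i : ℝ) := by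
  classical
  obtain ⟨C, κ, hκ, hmain⟩ := Pool.Agent.K7.H49.LT.lin_main k hk ε hε
  refine ⟨C, κ, hκ, fun μ _ hμ => ?_⟩
  have h1 : ∀ c n W E : ℕ, ∃ E₁ : ℕ, 2 ≤ c → ∀ᵐ x ∂μ, ∀ N₁ : ℕ, ∀ᶠ j : ℕ in atTop, ∀ m : ℕ, m ≤ j →
      (j : ℝ) ^ (1 / ((n:ℝ) + 1)) ≤ m → ∀ q : ℕ, |(q:ℝ) - block c x (j - m) j| ≤ (m:ℝ) ^ W →
        N₁ ≤ q ∧ Pool.Agent.K7.H49.LT.Gd E E₁ q := by
    intro c n W E
    by_cases hc : 2 ≤ c
    · obtain ⟨E₁, h⟩ := good_digits μ hμ c hc (1 / ((n:ℝ) + 1)) (by positivity) W E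
      exact ⟨E₁, fun _ => h⟩
    · exact ⟨0, fun h => absurd h hc⟩
  choose G hG using h1
  have h2 : ∀ᵐ x ∂μ, ∀ c n W E : ℕ, 2 ≤ c → ∀ N₁ : ℕ, ∀ᶠ j : ℕ in atTop, ∀ m : ℕ, m ≤ j →
      (j : ℝ) ^ (1 / ((n:ℝ) + 1)) ≤ m → ∀ q : ℕ, |(q:ℝ) - block c x (j - m) j| ≤ (m:ℝ) ^ W →
        N₁ ≤ q ∧ Pool.Agent.K7.H49.LT.Gd E (G c n W E) q := by
    rw [ae_all_iff]; intro c
    rw [ae_all_iff]; intro n
    rw [ae_all_iff]; intro W
    rw [ae_all_iff]; intro E
    by_cases hc : 2 ≤ c
    · filter_upwards [hG c n W E hc] with x hx _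
      exact hx
    · exact ae_of_all _ fun x h => absurd h hc
  filter_upwards [h2] with x hx η W E c hη hc
  obtain ⟨n, hn⟩ := exists_nat_one_div_lt hη
  obtain ⟨E₁, hE₁⟩ : ∃ E₁ : ℕ, E₁ = univ.sup (fun i => G (c i) n W E) := ⟨_, rfl⟩
  obtain ⟨N0, hN0⟩ := hmain E E₁
  have h3 : ∀ᶠ j : ℕ in atTop, ∀ i : Fin k, ∀ m : ℕ, m ≤ j →
      (j : ℝ) ^ (1 / ((n:ℝ) + 1)) ≤ m → ∀ q : ℕ, |(q:ℝ) - block (c i) x (j - m) j| ≤ (m:ℝ) ^ W →
        N0 + 3 ≤ q ∧ Pool.Agent.K7.H49.LT.Gd E (G (c i) n W E) q := by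
    rw [Filter.eventually_all]
    intro i
    exact hx (c i) n W E (hc i) (N0 + 3)
  obtain ⟨J, hJ⟩ := eventually_atTop.1 (h3.and (eventually_ge_atTop 1))
  refine ⟨J, fun a ha M hM => ?_⟩
  have h4 : ∀ i, N0 + 3 ≤ a i ∧ Pool.Agent.K7.H49.LT.Gd E E₁ (a i) := by
    intro i
    obtain ⟨j, m, q1, q2, q3, q4⟩ := ha i
    obtain ⟨r1, r2⟩ := hJ j q1
    have hj1 : (1:ℝ) ≤ j := by exact_mod_cast r2
    obtain ⟨s1, s2⟩ := r1 i m q2 ((Real.rpow_le_rpow_of_exponent_le hj1 hn.le).trans q3) (a i) q4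
    refine ⟨s1, gd_mono ?_ (by omega) s2⟩
    rw [hE₁]
    exact Finset.le_sup (f := fun i => G (c i) n W E) (mem_univ i)
  have h5 := hN0 a (fun i => ⟨by have := (h4 i).1; omega, (h4 i).2⟩) M hM
  have hM1 : 1 ≤ M := by
    have i0 : Fin k := ⟨0, hk⟩
    have h6 : (1:ℝ) ≤ Real.log (a i0) := by
      have h7 : 3 ≤ a i0 := by have := (h4 i0).1; omega
      rw [Real.le_log_iff_exp_le (by exact_mod_cast (by omega : 0 < a i0))]
      have : (3 : ℝ) ≤ a i0 := by exact_mod_cast h7
      linarith [Real.exp_one_lt_d9]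
    have h8 : (1:ℝ) ≤ M := (one_le_pow₀ h6).trans (hM i0).1
    exact_mod_cast h8
  refine le_trans ?_ h5
  unfold exceptions
  apply Nat.cast_le.2
  apply card_le_card
  intro b hb
  rw [mem_filter, Fintype.mem_piFinset] at hb ⊢
  refine ⟨fun i => ?_, fun hh => hb.2 (holds_of hk ε hε hε1 a b M hM1 (fun i => by have := (h4 i).1; omega) hh)⟩
  have := mem_Ico.1 (hb.1 i)
  rw [mem_Icc]
  omega

end Pool.Agent.Results.MP_746f10_nt.DigitBlocks
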