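import Pool.Agent.K7.H49.LT.Lin
import Pool.Agent.K7.H49.LT.LinFam
import Pool.Agent.U828.KD.Nat1

set_option autoImplicit false

/-! # Prime `k`-tuples `a_i n + b_i`, `n` bounded by a power of the logarithm: all leading coefficients near the values of
arbitrary functions with large differences of some order

There is a set `𝒢` of good leading coefficients, independent of the tuples, with two properties. For ALL functions `f` on
`{1, …, x}`, `x ≥ N ^ (1 / r + η)`, `2 ≤ r ≤ R`, with values in `[-B N, B N]`, whose differences of order `r` are all at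
least `N / (x ^ r (log N) ^ W)`, or all at most the negative of this number (for `r = 2`: the strictly convex or concave
functions; for larger `r` the sets of values are arbitrarily sparse; no regularity is assumed), for all but at most
`x / (log N) ^ A` of the `m ≤ x` ALL the integers `a ≥ N / (log N) ^ B` with `|a - f(m)| ≤ (log N) ^ W` are in `𝒢`. And for
all large `a_1, …, a_k ∈ 𝒢` and almost all constant terms `b_i < a_i` the asymptotic formula of Hardy and Littlewood holds
(up to a factor `1 ± ε`) for the number of the `n ≤ M` with all `a_i n + b_i` prime, where `M` is a power of the logarithm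
of the coefficients (far below the bound of the conjecture, which is a power of the coefficients).

Proof: by the energy theorem `Pool.Agent.U828.KD.energy_r` (helper828: an `r`-th derivative test for arbitrary sequences, and
Fejér kernels) the integers near the values have, up to powers of `log N`, the least possible additive energy of some
order; then the theorems of the starting files (`Pool.Agent.K7.H49.LT`) on families of small energy and on tuples with
good coefficients apply, as in helper471's `RealPolynomialCoefficients`. -/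

namespace Pool.Agent.Results.MP_746f10_nt.HigherConvexCoefficients

open Finset

/-- the number of `1 ≤ n ≤ M` for which all the numbers `a_i n + b_i` are prime -/
def count {k : ℕ} (a b : Fin k → ℕ) (M : ℕ) : ℕ :=
  ((Icc 1 M).filter (fun n => ∀ i, (a i * n + b i).Prime)).card

/-- the number of the classes `n` modulo `p` for which `p` divides some `a_i n + b_i` -/
def roots {k : ℕ} (a b : Fin k → ℕ) (p : ℕ) : ℕ := ((range p).filter (fun n => ∃ i, p ∣ a i * n + b i)).card

/-- the singular series, truncated at `y` -/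
noncomputable def sing {k : ℕ} (a b : Fin k → ℕ) (y : ℕ) : ℝ :=
  ∏ p ∈ (Icc 1 y).filter Nat.Prime, (1 - (roots a b p : ℝ) / p) / (1 - 1 / (p : ℝ)) ^ k

/-- the Hardy-Littlewood formula, up to a factor `1 ± ε`, with the singular series truncated at any
`y ≥ M` -/
def Holds {k : ℕ} (ε : ℝ) (a b : Fin k → ℕ) (M : ℕ) : Prop :=
  ∀ y : ℕ, M ≤ y → |(count a b M : ℝ) - sing a b y * (M / ∏ i, Real.log (a i))| ≤
    ε * (sing a b y * (M / ∏ i, Real.log (a i)))

open Classical in
/-- the number of the vectors `b`, `1 ≤ b_i < a_i`, for which the formula fails -/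
noncomputable def exceptions {k : ℕ} (ε : ℝ) (a : Fin k → ℕ) (M : ℕ) : ℕ :=
  ((Fintype.piFinset fun i => Ico 1 (a i)).filter (fun b => ¬ Holds ε a b M)).card

/-- The differences of order `r` of `f` on `{1, ..., x}` are all at least `κ`, or all at most `-κ`. Here `fwdDiff 1 f m`
is the difference `f (m + 1) - f m`. -/
def Bent (r x : ℕ) (f : ℕ → ℝ) (κ : ℝ) : Prop :=
  (∀ m, 1 ≤ m → m + r ≤ x → κ ≤ (fwdDiff 1)^[r] f m) ∨ (∀ m, 1 ≤ m → m + r ≤ x → (fwdDiff 1)^[r] f m ≤ -κ)

open Classical in
/-- The number of the `m ≤ x` for which some integer `a ≥ N / (log N) ^ B` with `|a - f(m)| ≤ (log N) ^ W` is not in `𝒢`. -/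
noncomputable def outside (B W N x : ℕ) (f : ℕ → ℝ) (𝒢 : Set ℕ) : ℕ :=
  ((Icc 1 x).filter (fun m : ℕ => ∃ a : ℕ, (N : ℝ) ≤ Real.log N ^ B * a ∧ |(a : ℝ) - f m| ≤ Real.log N ^ W ∧
    a ∉ 𝒢)).card

lemma holds_of {k : ℕ} (ε : ℝ) (a b : Fin k → ℕ) (M : ℕ) (ha : ∀ i, 2 ≤ a i) (h : Pool.Agent.K7.H49.LT.Hol ε a b M) :
    Holds ε a b M := by
  intro y hy
  have h1 := h y hy
  have hP : 0 < ∏ i, Real.log (a i) := prod_pos fun i _ => Real.log_pos (by
    have := ha i
    exact_mod_cast (by omega : 1 < a i))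
  have e1 : Pool.Agent.K7.H49.LT.cl a b M = count a b M := rfl
  have e2 : Pool.Agent.K7.H49.LT.sg k (Pool.Agent.K7.H49.LT.rt a b) y = sing a b y := rfl
  rw [e1, e2] at h1
  set P := ∏ i, Real.log (a i) with hPd
  set s := sing a b y
  have e3 : (count a b M : ℝ) - s * (M / P) = (count a b M * P - M * s) / P := by field_simp
  have e4 : ε * (s * (M / P)) = (ε * (M * s)) / P := by ring
  rw [e3, e4, abs_div, abs_of_pos hP]
  exact div_le_div_of_nonneg_right h1 hP.le

/-- **Prime tuples in systems of linear forms whose leading coefficients are near values of arbitrary functions.** Let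
`k ≥ 1` and `ε > 0`. There are an exponent `C` and `κ > 0` such that for all `R`, `η > 0`, `A`, `B`, `E` and `W` there is a
set `𝒢` of positive integers with the following properties.
(1) For all large `N`, all `2 ≤ r ≤ R`, all `x ≥ N ^ (1 / r + η)` and ALL functions `f` with values in `[-B N, B N]` on
`{1, ..., x}` whose differences of order `r` are all at least `N / (x ^ r (log N) ^ W)`, or all at most the negative of
this number: for all but at most `x / (log N) ^ A` of the `m ≤ x`, ALL the integers `a ≥ N / (log N) ^ B` with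
`|a - f(m)| ≤ (log N) ^ W` are in `𝒢`.
(2) For all `a_1, ..., a_k ∈ 𝒢` (large) and all `M` with `(log a_i) ^ C ≤ M ≤ (log a_i) ^ E` for all `i`: for all
but `M ^ (-κ) a_1 ⋯ a_k` of the vectors `b` with `1 ≤ b_i < a_i`, the number of `n ≤ M` for which all
`a_i n + b_i` are prime is within a factor `1 ± ε` of the prediction of Hardy and Littlewood. -/
theorem result (k : ℕ) (hk : 1 ≤ k) (ε : ℝ) (hε : 0 < ε) : ∃ C : ℕ, ∃ κ : ℝ, 0 < κ ∧ ∀ (R : ℕ) (η : ℝ), 0 < η →
    ∀ A B E W : ℕ, ∃ (𝒢 : Set ℕ) (N₀ : ℕ),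
      (∀ N : ℕ, N₀ ≤ N → ∀ r : ℕ, 2 ≤ r → r ≤ R → ∀ x : ℕ, (N : ℝ) ^ (1 / (r : ℝ) + η) ≤ x → ∀ f : ℕ → ℝ,
        (∀ m ∈ Icc 1 x, |f m| ≤ B * N) → Bent r x f (N / ((x : ℝ) ^ r * Real.log N ^ W)) →
        (outside B W N x f 𝒢 : ℝ) ≤ x / Real.log N ^ A) ∧
      (∀ a : Fin k → ℕ, (∀ i, a i ∈ 𝒢 ∧ N₀ ≤ a i) → ∀ M : ℕ,
        (∀ i, Real.log (a i) ^ C ≤ M ∧ (M : ℝ) ≤ Real.log (a i) ^ E) →
        (exceptions ε a M : ℝ) ≤ (M : ℝ) ^ (-κ) * ∏ i, (a i : ℝ)) := by
  classical
  obtain ⟨C, κ, hκ, hmain⟩ := Pool.Agent.K7.H49.LT.lin_main k hk ε hε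
  refine ⟨C, κ, hκ, fun R η hη A B E W => ?_⟩
  choose! h D V N₁ hh hnear using fun (r : ℕ) (hr : 2 ≤ r) => Pool.Agent.U828.KD.nearOne r hr (B + 1) W A η hη
  obtain ⟨H, hH⟩ : ∃ H, H = (range (R + 1)).sup h := ⟨_, rfl⟩
  obtain ⟨V', hV'⟩ : ∃ V', V' = (range (R + 1)).sup V := ⟨_, rfl⟩
  obtain ⟨B', hB'⟩ : ∃ B', B' = max (B + 1) ((range (R + 1)).sup (fun r => D r + 2 * h r * V r)) := ⟨_, rfl⟩
  obtain ⟨N₂, hN₂⟩ : ∃ N₂, N₂ = (range (R + 1)).sup N₁ := ⟨_, rfl⟩
  obtain ⟨E1, n1, h1⟩ := Pool.Agent.K7.H49.LT.lin_fam E V' B' H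
  obtain ⟨n2, h2⟩ := hmain E E1
  obtain ⟨n3, h3⟩ := Pool.Agent.U471.RP.ev_log 1
  obtain ⟨n4, h4⟩ := Pool.Agent.H373R2.T7.ev_log' W 1
  refine ⟨{a | Pool.Agent.K7.H49.LT.Gd E E1 a}, n1 + n2 + n3 + n4 + N₂ + 3, ?_, ?_⟩
  · intro N hN r hr hrR x hx f hf hb
    have hrm : r ∈ range (R + 1) := mem_range.2 (by omega)
    have a1 : h r ≤ H := by rw [hH]; exact le_sup (f := h) hrm
    have a2 : V r ≤ V' := by rw [hV']; exact le_sup (f := V) hrm
    have a3 : D r + 2 * h r * V r ≤ B' := by
      rw [hB']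
      exact le_trans (le_sup (f := fun r => D r + 2 * h r * V r) hrm) (le_max_right _ _)
    have a4 : N₁ r ≤ N₂ := by rw [hN₂]; exact le_sup (f := N₁) hrm
    have hL := h3 N (by omega)
    have hs := h4 N (by omega)
    have hN3 : (3 : ℝ) ≤ N := by exact_mod_cast (by omega : 3 ≤ N)
    have hWN : Real.log N ^ W ≤ N := by
      have h6 : √(N : ℝ) ≤ N := by
        rw [Real.sqrt_le_left (by positivity)]
        nlinarith
      linarith
    have hcrit : Pool.Agent.U828.CV.At.Crit1 (B + 1) (h r) (D r) (V r) N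
        (fun b => ¬ (0 ≤ b ∧ ((N : ℝ) ≤ Real.log N ^ B * (b.toNat : ℕ) ∧ ¬ Pool.Agent.K7.H49.LT.Gd E E1 b.toNat))) := by
      apply Pool.Agent.U828.KD.crit1_nat (Bad := fun a => (N : ℝ) ≤ Real.log N ^ B * (a : ℕ) ∧
        ¬ Pool.Agent.K7.H49.LT.Gd E E1 a) hL
      intro x s hs hE S hSx hS
      have h5 := h1 (h r) a1 N (by omega) x s (fun l hl => (hs l hl).trans
          (Nat.mul_le_mul_right _ (by rw [hB']; exact le_max_left _ _))) (hE.trans (by
        apply mul_le_mul_of_nonneg_right _ (by positivity)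
        exact pow_le_pow_right₀ hL a3))
      refine le_trans ?_ (h5.trans ?_)
      · apply Nat.cast_le.2
        apply card_le_card
        intro m hm
        rw [mem_filter]
        obtain ⟨h6, h7⟩ := hS m hm
        refine ⟨hSx hm, h6.trans ?_, h7⟩
        apply mul_le_mul_of_nonneg_right _ (Nat.cast_nonneg _)
        apply pow_le_pow_right₀ hL
        rw [hB']
        exact le_trans (by omega) (le_max_left _ _)
      · apply div_le_div_of_nonneg_left (Nat.cast_nonneg _) (by positivity)
        exact pow_le_pow_right₀ hL a2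
    unfold outside
    refine hnear r hr N (by omega) _ hcrit x hx f (fun m hm => (hf m hm).trans (by push_cast; linarith)) hb _
      (filter_subset _ _) ?_
    intro m hm
    rw [mem_filter] at hm
    obtain ⟨hm0, a, ha0, ha1, ha2⟩ := hm
    refine ⟨(a : ℤ), ?_, by exact_mod_cast ha1, ?_⟩
    · have h6 := abs_le.1 (hf m hm0)
      have h7 := abs_le.1 ha1
      rw [Int.cast_natCast, abs_of_nonneg (Nat.cast_nonneg a)]
      push_cast
      linarith [h6.2, h7.2]
    · rw [not_not]
      refine ⟨Int.natCast_nonneg a, ?_, ?_⟩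
      · rw [Int.toNat_natCast]; exact ha0
      · rw [Int.toNat_natCast]; exact ha2
  · intro a ha M hM
    refine le_trans ?_ (h2 a (fun i => ⟨by have := (ha i).2; omega, (ha i).1⟩) M hM)
    unfold exceptions
    have hsub : (Fintype.piFinset fun i => Ico 1 (a i)).filter (fun b => ¬ Holds ε a b M) ⊆
        (Fintype.piFinset fun i => Icc 1 (a i - 1)).filter (fun b => ¬ Pool.Agent.K7.H49.LT.Hol ε a b M) := by
      intro b hb
      rw [mem_filter, Fintype.mem_piFinset] at hb ⊢
      refine ⟨fun i => ?_, fun h5 => hb.2 (holds_of ε a b M (fun i => by have := (ha i).2; omega) h5)⟩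
      have := mem_Ico.1 (hb.1 i)
      rw [mem_Icc]
      omega
    exact_mod_cast card_le_card hsub

end Pool.Agent.Results.MP_746f10_nt.HigherConvexCoefficients
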